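import Pool.Agent.Helper24.N9.Main

/-! MP_9b91d1_co, Q1: uniqueness of locally minimal realizations. -/

open scoped RealInnerProductSpace

namespace Pool.Agent.Results.MP_9b91d1_co.LocallyMinimalUnique

open Pool.Agent.Helper30.N9

/-- Q1 of the problem, full answer: for every vertex 3-connected plane graph `M` and every locally
minimal realization `p` in `C(G)`, every `q` in `C(G)` none of whose edges is longer than in `p` is
`R p` for a rotation `R`. -/
theorem result (V : Type) [Fintype V] [DecidableEq V] (M : PlaneGraph V) (h3 : M.Conn3)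
    (p : V → E3) (hp : M.LocMin p) (q : V → E3) (hq : M.InC q) (hqp : M.Le q p) :
    ∃ R : E3 ≃ₗᵢ[ℝ] E3, LinearMap.det (R.toLinearEquiv : E3 →ₗ[ℝ] E3) = 1 ∧
      ∀ v, q v = R (p v) :=
  q1 V M h3 p hp q hq hqp

end Pool.Agent.Results.MP_9b91d1_co.LocallyMinimalUnique
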